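import Pool.Agent.MP_5f72fe_nt.H3.SpecC

/-! Row TER: theta series of the harmonic polynomials `Pd`. -/

namespace Pool.Agent.MP_5f72fe_nt.H40

open Complex Pool.Agent.MP_5f72fe_nt.H3

lemma sm_par {c : ℕ → ℂ} (h : Sm c) (μ : ℕ) : Sm (par μ c) := fun r h0 h1 =>
  Summable.of_nonneg_of_le (fun n => by positivity) (fun n => by
    unfold par
    split_ifs
    · exact le_rfl
    · rw [norm_zero, zero_mul]
      positivity) (h r h0 h1)

lemma ser_par_add (hS : RowSER) {M : ℕ} (hM : 0 < M) {c d : ℕ → ℂ} (hc : Sm c) (hd : Sm d) (μ : ℕ)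
    {τ : ℂ} (hτ : 0 < τ.im) :
    ser M (par μ (c + d)) τ = ser M (par μ c) τ + ser M (par μ d) τ := by
  unfold ser
  rw [← (hS.nsum M _ τ hM (sm_par hc μ) hτ).of_norm.tsum_add
    (hS.nsum M _ τ hM (sm_par hd μ) hτ).of_norm]
  refine tsum_congr fun n => ?_
  unfold par
  split_ifs
  · rw [Pi.add_apply, add_mul]
  · simp

lemma ser_par_smul (M : ℕ) (x : ℂ) (c : ℕ → ℂ) (μ : ℕ) (τ : ℂ) :
    ser M (par μ (x • c)) τ = x * ser M (par μ c) τ := by
  unfold ser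
  rw [← tsum_mul_left]
  refine tsum_congr fun n => ?_
  unfold par
  split_ifs
  · rw [Pi.smul_apply, smul_eq_mul, mul_assoc]
  · simp

lemma wl_smul {j : ℕ} (x : ℂ) {c : ℕ → ℂ} (h : WL j c) : WL j (x • c) := by
  obtain ⟨h1, h2, h3⟩ := h
  refine ⟨fun r hr0 hr1 => ((h1 r hr0 hr1).mul_left ‖x‖).congr fun n => ?_,
    fun n hn => h2 n fun h => hn ?_, fun τ hτ μ hμ => ?_⟩
  · rw [Pi.smul_apply, smul_eq_mul, norm_mul, mul_assoc]
  · rw [Pi.smul_apply, h, smul_zero]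
  · rw [ser_par_smul, ser_par_smul, ser_par_smul, h3 τ hτ μ hμ]
    ring

/-- the space of forms -/
def wl (hS : RowSER) (j : ℕ) : Submodule ℂ (ℕ → ℂ) where
  carrier := {h | WL j h}
  smul_mem' x _ h := wl_smul x h
  zero_mem' := by
    refine ⟨fun r _ _ => by simpa using summable_zero, fun n hn => absurd rfl hn,
      fun τ _ μ _ => ?_⟩
    simp [ser, par]
  add_mem' := by
    rintro c d ⟨h1, h2, h3⟩ ⟨k1, k2, k3⟩
    refine ⟨fun r hr0 hr1 => Summable.of_nonneg_of_le (fun n => by positivity) (fun n => ?_)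
      ((h1 r hr0 hr1).add (k1 r hr0 hr1)), fun n hn => ?_, fun τ hτ μ hμ => ?_⟩
    · rw [← add_mul]
      exact mul_le_mul_of_nonneg_right (norm_add_le _ _) (by positivity)
    · by_cases h : c n = 0
      · exact k2 n fun h' => hn (by rw [Pi.add_apply, h, h', add_zero])
      · exact h2 n h
    · have hτ' : 0 < (-1 / (((1 : ℕ) : ℂ) * τ)).im := by
        have h0 : τ ≠ 0 := fun h => by simp [h] at hτ
        rw [Nat.cast_one, one_mul, neg_div, one_div, neg_im, inv_im, neg_div, neg_neg]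
        exact div_pos hτ (normSq_pos.2 h0)
      rw [ser_par_add hS (by norm_num) h1 k1 μ hτ', ser_par_add hS (by norm_num) h1 k1 0 hτ,
        ser_par_add hS (by norm_num) h1 k1 1 hτ, h3 τ hτ μ hμ, k3 τ hτ μ hμ]
      ring

/-- coefficients of a polynomial family in a subspace -/
lemma coef_mem {X ι : Type} [AddCommGroup X] [Module ℂ X] (W : Submodule ℂ X) (T : Finset ι)
    (e : ι → ℕ) (x : ι → X) (h : ∀ t : ℂ, t ≠ 0 → ∑ i ∈ T, t ^ e i • x i ∈ W) (k : ℕ) :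
    ∑ i ∈ T, (if e i = k then x i else 0) ∈ W := by
  rw [← Subspace.forall_mem_dualAnnihilator_apply_eq_zero_iff]
  intro φ hφ
  have h1 : (∑ i ∈ T, Polynomial.monomial (e i) (φ (x i))) = 0 := by
    refine Polynomial.eq_zero_of_infinite_isRoot _ (Set.Infinite.mono (s := {0}ᶜ) (fun t ht => ?_)
      (Set.finite_singleton (0 : ℂ)).infinite_compl)
    have h2 := (Submodule.mem_dualAnnihilator φ).1 hφ _ (h t ht)
    rw [map_sum] at h2
    rw [Set.mem_setOf_eq, Polynomial.IsRoot, Polynomial.eval_finsetSum, ← h2]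
    refine Finset.sum_congr rfl fun i _ => ?_
    rw [Polynomial.eval_monomial, map_smul, smul_eq_mul, mul_comm]
  have h2 := congrArg (fun P => Polynomial.coeff P k) h1
  simp only [Polynomial.finsetSum_coeff, Polynomial.coeff_monomial, Polynomial.coeff_zero] at h2
  rw [map_sum, ← h2]
  refine Finset.sum_congr rfl fun i _ => ?_
  split_ifs
  · rfl
  · exact map_zero φ

lemma tri (c A B t : ℂ) (d : ℕ) : (c + t * (B * t + A)) ^ d =
    ∑ p ∈ Finset.range (d + 1) ×ˢ Finset.range (d + 1), t ^ (d - p.1 + p.2) *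
      ((d.choose p.1 * (d - p.1).choose p.2 : ℕ) * c ^ p.1 * B ^ p.2 * A ^ (d - p.1 - p.2)) := by
  rw [add_pow, Finset.sum_product]
  refine Finset.sum_congr rfl fun i hi => ?_
  rw [mul_pow, add_pow, Finset.mul_sum, Finset.mul_sum, Finset.sum_mul]
  refine Finset.sum_subset_zero_on_sdiff (Finset.range_subset_range.2 (by omega))
    (fun k hk => ?_) fun k _ => ?_
  · simp only [Finset.mem_sdiff, Finset.mem_range] at hk
    rw [Nat.choose_eq_zero_of_lt (show d - i < k by omega)]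
    simp
  · push_cast
    ring

lemma zpow_eq (y b : ℤ) (s : ℂ) (hs : s ^ 2 = -3) (m : ℕ) : ((y : ℂ) + b * s) ^ m =
    (((⟨y, b⟩ : ℤ√(-3)) ^ m).re : ℂ) + (((⟨y, b⟩ : ℤ√(-3)) ^ m).im : ℂ) * s := by
  induction m with
  | zero => simp
  | succ m ih =>
    rw [pow_succ, ih, pow_succ, Zsqrtd.re_mul, Zsqrtd.im_mul]
    push_cast
    linear_combination (((⟨y, b⟩ : ℤ√(-3)) ^ m).im : ℂ) * b * hs

lemma mem_Rp {n : ℕ} {v : V} :
    v ∈ Rp n ↔ v.2.1 ^ 2 + 3 * v.1 ^ 2 + 3 * v.2.2 ^ 2 = n ∧ v.2.1 % 2 = v.2.2 % 2 := by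
  unfold Rp
  rw [Finset.mem_filter, and_iff_right_iff_imp]
  rintro ⟨h, -⟩
  have key : ∀ x : ℤ, x ^ 2 ≤ n → x ∈ Finset.Icc (-(n : ℤ)) n := fun x hx =>
    Finset.mem_Icc.2 ⟨by nlinarith [sq_nonneg (2 * x + 1), Int.le_self_sq (-x)],
      (Int.le_self_sq x).trans hx⟩
  simp only [Finset.mem_product]
  refine ⟨key _ ?_, key _ ?_, key _ ?_⟩ <;>
    nlinarith [sq_nonneg v.1, sq_nonneg v.2.1, sq_nonneg v.2.2]

/-- the rotation of order three -/
def ro (v : V) : V := (v.1, -((v.2.1 + 3 * v.2.2) / 2), (v.2.1 - v.2.2) / 2)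

lemma ro_mem {n : ℕ} {v : V} (h : v ∈ Rp n) : ro v ∈ Rp n := by
  obtain ⟨a, y, b⟩ := v
  rw [mem_Rp] at h ⊢
  obtain ⟨h1, h2⟩ := h
  simp only [ro] at h1 h2 ⊢
  obtain ⟨t, rfl⟩ : ∃ t, y = b + 2 * t := ⟨(y - b) / 2, by omega⟩
  have e1 : (b + 2 * t + 3 * b) / 2 = 2 * b + t := by omega
  have e2 : (b + 2 * t - b) / 2 = t := by omega
  rw [e1, e2]
  exact ⟨by linear_combination h1, by omega⟩

lemma ro_three {n : ℕ} {v : V} (h : v ∈ Rp n) : ro (ro (ro v)) = v := by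
  obtain ⟨a, y, b⟩ := v
  have h2 := (mem_Rp.1 h).2
  simp only [ro, Prod.mk.injEq, true_and] at h2 ⊢
  omega

lemma sum_ro (n : ℕ) (g : V → ℤ) : ∑ v ∈ Rp n, g (ro v) = ∑ v ∈ Rp n, g v :=
  Finset.sum_nbij' ro (fun v => ro (ro v)) (fun _ h => ro_mem h) (fun _ h => ro_mem (ro_mem h))
    (fun _ h => ro_three h) (fun _ h => ro_three h) fun _ _ => rfl

lemma pd_ro (hP : RowPOL) (d m : ℕ) (hm : 3 ∣ m) {n : ℕ} {v : V} (h : v ∈ Rp n) :
    Pd d m (ro v) = Pd d m v := by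
  have h1 : sg v = (-2 : ℤ) • ro v := by
    obtain ⟨a, y, b⟩ := v
    have h2 := (mem_Rp.1 h).2
    simp only [ro, sg, Prod.smul_mk, smul_eq_mul, Prod.mk.injEq, true_and] at h2 ⊢
    omega
  have h2 := hP.rot d m v hm
  rw [h1, hP.hom, show chi3 (-2) = 1 by decide, one_mul] at h2
  exact mul_left_cancel₀ (pow_ne_zero _ (by norm_num)) h2

lemma sum_three (hP : RowPOL) (d m : ℕ) (hm : 3 ∣ m) (n : ℕ) :
    ∑ v ∈ Rp n, Pd d m v = 3 * TH0 (Pd d m) n := by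
  set g : V → ℤ := fun v => if 3 ∣ v.2.2 then Pd d m v else 0 with hg
  have h1 : TH0 (Pd d m) n = ∑ v ∈ Rp n, g v := by
    unfold TH0 Rp0
    rw [Finset.sum_filter]
  have h2 : ∀ v ∈ Rp n, Pd d m v = g v + g (ro v) + g (ro (ro v)) := by
    intro v hv
    simp only [hg]
    rw [pd_ro hP d m hm (ro_mem hv), pd_ro hP d m hm hv]
    by_cases h3 : 3 ∣ v.2.1
    · simp [hP.zero d m v h3]
    · have h4 := (mem_Rp.1 hv).2
      generalize Pd d m v = x
      obtain ⟨a, y, b⟩ := v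
      simp only [ro] at h3 h4 ⊢
      obtain ⟨t, rfl⟩ : ∃ t, y = b + 2 * t := ⟨(y - b) / 2, by omega⟩
      have e1 : (b + 2 * t + 3 * b) / 2 = 2 * b + t := by omega
      have e2 : (b + 2 * t - b) / 2 = t := by omega
      have e3 : (-(2 * b + t) - t) / 2 = -b - t := by omega
      simp only [e1, e2, e3]
      have h5 : b % 3 = 0 ∨ b % 3 = 1 ∨ b % 3 = 2 := by omega
      have h6 : t % 3 = 0 ∨ t % 3 = 1 ∨ t % 3 = 2 := by omega
      rcases h5 with h5 | h5 | h5 <;> rcases h6 with h6 | h6 | h6 <;> split_ifs <;> omega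
  rw [Finset.sum_congr rfl h2, Finset.sum_add_distrib, Finset.sum_add_distrib,
    sum_ro n fun v => g (ro v), sum_ro n g, h1]
  ring

lemma sum_flip (n : ℕ) (g : V → ℂ) :
    ∑ v ∈ Rp n, g (v.1, v.2.1, -v.2.2) = ∑ v ∈ Rp n, g v := by
  have h : ∀ v ∈ Rp n, ((v.1, v.2.1, -v.2.2) : V) ∈ Rp n := fun v hv => by
    rw [mem_Rp] at hv ⊢
    exact ⟨by simpa using hv.1, by have := hv.2; simp only; omega⟩
  exact Finset.sum_nbij' (fun v => (v.1, v.2.1, -v.2.2)) (fun v => (v.1, v.2.1, -v.2.2)) h h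
    (fun _ _ => by simp) (fun _ _ => by simp) fun _ _ => rfl

/-- the radial factor -/
noncomputable def rad (d m : ℕ) (v : V) : ℂ :=
  ∑ i ∈ (Finset.range (d + 1)).filter fun i => m + 2 * i ≤ d,
    (d.choose i * (d - i).choose (m + i) : ℕ) * (-3 * ((v.2.1 : ℂ) ^ 2 + 3 * v.2.2 ^ 2)) ^ i *
      (6 * v.1) ^ (d - m - 2 * i)

lemma sum_re (d m n : ℕ) (s : ℂ) (hs : s ^ 2 = -3) :
    ∑ v ∈ Rp n, (chi3 v.2.1 : ℂ) * ((v.2.1 + v.2.2 * s) ^ m * rad d m v) =
      ((∑ v ∈ Rp n, Pd d m v : ℤ) : ℂ) := by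
  have h1 := sum_flip n fun v => (chi3 v.2.1 : ℂ) * ((v.2.1 + v.2.2 * s) ^ m * rad d m v)
  refine mul_left_cancel₀ (two_ne_zero' ℂ) ?_
  rw [two_mul]
  nth_rewrite 1 [← h1]
  rw [← Finset.sum_add_distrib, Int.cast_sum, Finset.mul_sum]
  refine Finset.sum_congr rfl fun v _ => ?_
  have h2 : rad d m (v.1, v.2.1, -v.2.2) = rad d m v := by simp [rad]
  have h3 := zpow_eq v.2.1 v.2.2 s hs m
  have h4 := zpow_eq v.2.1 v.2.2 (-s) (by rw [neg_sq, hs]) m
  have h5 : (Pd d m v : ℂ) =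
      chi3 v.2.1 * (((⟨v.2.1, v.2.2⟩ : ℤ√(-3)) ^ m).re : ℂ) * rad d m v := by
    simp [Pd, rad]
  simp only
  rw [h2, h5, h3, Int.cast_neg, neg_mul, ← mul_neg, h4]
  ring

lemma coef (d m : ℕ) (s : ℂ) (hs : s ^ 2 = -3) (v : V) :
    ∑ p ∈ Finset.range (d + 1) ×ˢ Finset.range (d + 1), (if d - p.1 + p.2 = d + m then
      ((d.choose p.1 * (d - p.1).choose p.2 : ℕ) : ℂ) * (-3 * (v.2.1 - v.2.2 * s)) ^ p.1 *
        (v.2.1 + v.2.2 * s) ^ p.2 * (6 * v.1) ^ (d - p.1 - p.2) else 0) =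
      (v.2.1 + v.2.2 * s) ^ m * rad d m v := by
  rw [Finset.sum_product, rad, Finset.sum_filter, Finset.mul_sum]
  refine Finset.sum_congr rfl fun i hi => ?_
  rw [Finset.mem_range] at hi
  rw [Finset.sum_eq_single (m + i) (fun k _ hk => if_neg (by simp only; omega))]
  · simp only
    rw [if_pos (by omega)]
    split_ifs with h
    · have h1 : (-3 * ((v.2.1 : ℂ) ^ 2 + 3 * v.2.2 ^ 2)) =
          -3 * (v.2.1 - v.2.2 * s) * (v.2.1 + v.2.2 * s) := by
        linear_combination (-3 * (v.2.2 : ℂ) ^ 2) * hs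
      rw [h1, mul_pow _ (v.2.1 + v.2.2 * s : ℂ), show d - i - (m + i) = d - m - 2 * i by omega]
      ring
    · rw [Nat.choose_eq_zero_of_lt (show d - i < m + i by omega)]
      simp
  · intro h
    rw [Finset.mem_range] at h
    simp only
    rw [Nat.choose_eq_zero_of_lt (show d - i < m + i by omega)]
    simp

theorem rowTER : OfTER := by
  intro hS hP hT j l hj
  obtain ⟨s, hs⟩ : ∃ s : ℂ, s ^ 2 = -3 := ⟨I * (√3 : ℝ), by
    rw [mul_pow, I_sq, ← ofReal_pow, Real.sq_sqrt (by norm_num)]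
    norm_num⟩
  obtain ⟨d, hd⟩ : ∃ d, d = j + 3 := ⟨_, rfl⟩
  have h1 := coef_mem (wl hS j) (Finset.range (d + 1) ×ˢ Finset.range (d + 1))
    (fun p => d - p.1 + p.2)
    (fun p n => ∑ v ∈ Rp n, (chi3 v.2.1 : ℂ) * (((d.choose p.1 * (d - p.1).choose p.2 : ℕ) : ℂ) *
      (-3 * (v.2.1 - v.2.2 * s)) ^ p.1 * (v.2.1 + v.2.2 * s) ^ p.2 * (6 * v.1) ^ (d - p.1 - p.2)))
    (fun t ht => ?_) (d + (6 * l + 3))
  · have h2 := (wl hS j).smul_mem (1 / 3 : ℂ) h1
    have h3 : WL j _ := h2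
    refine (congrArg (WL j) (funext fun n => ?_)).mp h3
    rw [Pi.smul_apply, Finset.sum_apply, smul_eq_mul, ← hd]
    have h4 := sum_re d (6 * l + 3) n s hs
    rw [sum_three hP d (6 * l + 3) ⟨2 * l + 1, by ring⟩ n] at h4
    push_cast at h4
    rw [div_mul_eq_mul_div, one_mul, div_eq_iff (by norm_num), mul_comm _ (3 : ℂ), ← h4]
    simp_rw [← coef d (6 * l + 3) s hs, Finset.mul_sum]
    rw [Finset.sum_comm]
    refine Finset.sum_congr rfl fun p _ => ?_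
    split_ifs
    · rfl
    · simp
  · have h2 := wl_smul (t ^ d) (hT j 6 (t - 3 / t) (s * (t + 3 / t)) hj (by
      rw [mul_pow, hs]
      field_simp
      ring))
    refine (congrArg (WL j) (funext fun n => ?_)).mp h2
    rw [Pi.smul_apply, Finset.sum_apply, smul_eq_mul, ← hd, Finset.mul_sum]
    simp only [Pi.smul_apply, smul_eq_mul, Finset.mul_sum]
    rw [Finset.sum_comm]
    refine Finset.sum_congr rfl fun v _ => ?_
    rw [mul_left_comm, ← mul_pow]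
    have h3 : t * (6 * (v.1 : ℂ) + (t - 3 / t) * v.2.1 + s * (t + 3 / t) * v.2.2) =
        -3 * (v.2.1 - v.2.2 * s) + t * ((v.2.1 + v.2.2 * s) * t + 6 * v.1) := by
      field_simp
      ring
    rw [h3, tri, Finset.mul_sum]
    exact Finset.sum_congr rfl fun p _ => mul_left_comm _ _ _

end Pool.Agent.MP_5f72fe_nt.H40
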